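import Pool.Agent.N375.AV.D
import Pool.Agent.Results.MP_cb27ba_nt.InitialSegments

/-!
# The initial segments of arbitrary sets of integers for ALL primes near functions of the values of additive functions

Let `F = f_1 ∘ ⋯ ∘ f_k` be a composition of functions dominated by the largest prime factor, for example of additive functions
`f` with `f(q^j) ≤ C q^j` which are injective at the large primes (the sum of the prime factors), of the largest prime factor and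
of Kempner's function. Let `𝒜` be any set of nonnegative integers (no condition on its structure or energy) and let `𝒜(p)` be
the set of its elements below the prime `p`. For every `δ > 0` there is `τ > 0` (independent of `F` and `𝒜`) such that for all
`b > 0`, `d ≥ 1` and `κ ≥ 0` with `d (1 - τ) + κ < 1`, for all `m ≤ N` but `K N exp (-c (log N)^(1/(k+1)))`, ALL primes `p` with
`|p - b F(m)^d| ≤ F(m)^κ` and `|𝒜(p)| ≥ p ^ δ` satisfy the bound of the question for the quadratic character and all subsets `A`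
of `𝒜(p)` with at least `|𝒜(p)| ^ (1 - τ)` elements: `|∑_{a, b ∈ A} (a - b | p)| < |A| ^ (2 - τ)`. More generally `G (F m)` takes
the place of `b F(m)^d`, where `G` is any function with steps bounded below by a positive constant and growth at most `v^d`.
The values of `F` are taken with very large multiplicities, and `F(m)` is in general of smaller order of magnitude than `m`, and
so this does not follow from the size of the exceptional set of primes.

Proof. The preimage of a set with at most `K X exp (- c (log X)^β)` elements up to `X` under a function dominated by the largest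
prime factor has at most `K' X exp (- c' (log X)^(β / (1 + β)))` elements (`Pool/Agent/N375/AV/D.lean`, helper375). The
exceptional set of primes has a power saving by the starting theorem `InitialSegments` of this problem.
-/

set_option autoImplicit false

namespace Pool.Agent.Results.MP_cb27ba_nt.AdditiveValues

open Finset
open Pool.Agent.N733.TG (Expanding expanding_pow)
open Pool.Agent.N375.AV (PD comp good_nat pd_additive pd_largest pd_kempner)

open scoped Classical in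
/-- the elements of `𝒜` below `p` -/
noncomputable def seg (𝒜 : Set ℕ) (p : ℕ) : Finset ℕ := (range p).filter (fun n => n ∈ 𝒜)

/-- the sum of the Legendre symbols of the differences -/
noncomputable def S (p : ℕ) (A : Finset ℕ) : ℝ := ∑ a ∈ A, ∑ b ∈ A, (jacobiSym ((a : ℤ) - b) p : ℝ)

/-- the bound of the question, with saving `τ`, for the quadratic character modulo `p` and all subsets of `𝒜(p)` with at least
`|𝒜(p)| ^ (1 - τ)` elements, if `|𝒜(p)| ≥ p ^ δ` -/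
def Good (δ τ : ℝ) (𝒜 : Set ℕ) (p : ℕ) : Prop :=
  (p : ℝ) ^ δ ≤ (seg 𝒜 p).card → ∀ A ⊆ seg 𝒜 p, ((seg 𝒜 p).card : ℝ) ^ (1 - τ) ≤ A.card →
    |S p A| < (A.card : ℝ) ^ (2 - τ)

/-- the number of the exceptional primes, uniformly in `𝒜` -/
lemma count (δ : ℝ) (hδ : 0 < δ) : ∃ τ C : ℝ, 0 < τ ∧ τ ≤ 1 ∧ ∀ (𝒜 : Set ℕ) (X : ℕ), 1 ≤ X →
    ({t : ℕ | 1 ≤ t ∧ t ≤ X ∧ (t.Prime ∧ ¬ Good δ τ 𝒜 t)}.ncard : ℝ) ≤ C * (X : ℝ) ^ (1 - τ) := by
  obtain ⟨τ', hτ', Q₀, hQ₀⟩ := InitialSegments.result δ hδ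
  obtain ⟨τ, hτd⟩ : ∃ τ, τ = min τ' 1 := ⟨_, rfl⟩
  have hτ : 0 < τ := by rw [hτd]; exact lt_min hτ' one_pos
  have hτ1 : τ ≤ 1 := by rw [hτd]; exact min_le_right _ _
  have hττ : τ ≤ τ' := by rw [hτd]; exact min_le_left _ _
  refine ⟨τ, (Q₀ : ℝ) + 1, hτ, hτ1, fun 𝒜 X hX => ?_⟩
  have hkey : ∀ Q : ℕ, Q₀ ≤ Q → 1 ≤ Q →
      ({p : ℕ | 1 ≤ p ∧ p ≤ Q ∧ (p.Prime ∧ ¬ Good δ τ 𝒜 p)}.ncard : ℝ) ≤ (Q : ℝ) ^ (1 - τ) := by
    intro Q hQ hQ1
    have h := hQ₀ Q hQ 𝒜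
    have hQ1' : (1 : ℝ) ≤ Q := by exact_mod_cast hQ1
    have hfin : {p : ℕ | p.Prime ∧ p ≤ Q ∧ (p : ℝ) ^ δ ≤ (InitialSegments.seg 𝒜 p).card ∧ ∃ A ⊆ InitialSegments.seg 𝒜 p,
        ((InitialSegments.seg 𝒜 p).card : ℝ) ^ (1 - τ') ≤ A.card ∧ (A.card : ℝ) ^ (2 - τ') ≤ |InitialSegments.S p A|}.Finite :=
      (Set.finite_Iic Q).subset (fun p hp => hp.2.1)
    have hsub : {p : ℕ | 1 ≤ p ∧ p ≤ Q ∧ (p.Prime ∧ ¬ Good δ τ 𝒜 p)} ⊆
        {p : ℕ | p.Prime ∧ p ≤ Q ∧ (p : ℝ) ^ δ ≤ (InitialSegments.seg 𝒜 p).card ∧ ∃ A ⊆ InitialSegments.seg 𝒜 p,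
        ((InitialSegments.seg 𝒜 p).card : ℝ) ^ (1 - τ') ≤ A.card ∧ (A.card : ℝ) ^ (2 - τ') ≤ |InitialSegments.S p A|} := by
      rintro p ⟨g1, g2, g3, g4⟩
      unfold Good at g4
      push Not at g4
      obtain ⟨g5, A, g6, g7, g8⟩ := g4
      refine ⟨g3, g2, g5, A, g6, ?_, ?_⟩
      · have hp0 : (0 : ℝ) < (p : ℝ) ^ δ := Real.rpow_pos_of_pos (by exact_mod_cast g3.pos) _
        have hc0 : 0 < (seg 𝒜 p).card := by
          have : (0 : ℝ) < (seg 𝒜 p).card := lt_of_lt_of_le hp0 g5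
          exact_mod_cast this
        have hc1 : (1 : ℝ) ≤ (seg 𝒜 p).card := by exact_mod_cast hc0
        refine le_trans ?_ g7
        exact Real.rpow_le_rpow_of_exponent_le hc1 (by linarith)
      · have hp0 : (0 : ℝ) < (p : ℝ) ^ δ := Real.rpow_pos_of_pos (by exact_mod_cast g3.pos) _
        have hc0 : (0 : ℝ) < (seg 𝒜 p).card := lt_of_lt_of_le hp0 g5
        have hA0 : (0 : ℝ) < A.card := lt_of_lt_of_le (Real.rpow_pos_of_pos hc0 _) g7
        have hA0' : 0 < A.card := by exact_mod_cast hA0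
        have hA1 : (1 : ℝ) ≤ A.card := by exact_mod_cast hA0'
        refine le_trans ?_ g8
        exact Real.rpow_le_rpow_of_exponent_le hA1 (by linarith)
    calc ({p : ℕ | 1 ≤ p ∧ p ≤ Q ∧ (p.Prime ∧ ¬ Good δ τ 𝒜 p)}.ncard : ℝ) ≤ _ := by
          exact_mod_cast Set.ncard_le_ncard hsub hfin
      _ ≤ (Q : ℝ) ^ (1 - τ') := h
      _ ≤ (Q : ℝ) ^ (1 - τ) := Real.rpow_le_rpow_of_exponent_le hQ1' (by linarith)
  have hX1 : (1 : ℝ) ≤ X := by exact_mod_cast hX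
  have hXs : (1 : ℝ) ≤ (X : ℝ) ^ (1 - τ) := Real.one_le_rpow hX1 (by linarith)
  rcases le_total Q₀ X with h3 | h3
  · refine (hkey X h3 hX).trans ?_
    have : (0 : ℝ) ≤ Q₀ := Nat.cast_nonneg _
    nlinarith
  · have hsub : {t : ℕ | 1 ≤ t ∧ t ≤ X ∧ (t.Prime ∧ ¬ Good δ τ 𝒜 t)} ⊆ (Icc 1 X : Finset ℕ) := by
      rintro t ⟨g1, g2, -⟩
      rw [Finset.mem_coe, mem_Icc]
      exact ⟨g1, g2⟩
    have h4 : {t : ℕ | 1 ≤ t ∧ t ≤ X ∧ (t.Prime ∧ ¬ Good δ τ 𝒜 t)}.ncard ≤ X := by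
      refine (Set.ncard_le_ncard hsub (Finset.finite_toSet _)).trans ?_
      rw [Set.ncard_coe_finset, Nat.card_Icc]
      omega
    have h5 : ({t : ℕ | 1 ≤ t ∧ t ≤ X ∧ (t.Prime ∧ ¬ Good δ τ 𝒜 t)}.ncard : ℝ) ≤ (Q₀ : ℝ) := by
      exact_mod_cast h4.trans h3
    have : (0 : ℝ) ≤ Q₀ := Nat.cast_nonneg _
    nlinarith

/-- **Theorem.** For every `δ > 0` there is `τ` in `(0, 1]` such that the following holds. Let `F` be a composition of `k`
functions dominated by the largest prime factor (`PD`). Let `G` have steps `≥ a > 0` and growth at most `v^d`, `κ ≥ 0` and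
`d (1 - τ) + κ < 1`. For every set `𝒜` of nonnegative integers there are `c > 0` and `K` such that for all `N ≥ 1`, for all
`m ≤ N` but `K N exp (-c (log N)^(1/(k+1)))`, ALL primes `p` with `|p - G (F m)| ≤ F(m)^κ` are good for `𝒜`. All additive
functions `f` with `f(q^j) ≤ C q^j` for the prime powers, injective at the large primes, the largest prime factor and the least
`k` such that `n` divides `k!` are examples of such functions, and `b v^d` with `b > 0`, `d ≥ 1` is an example of `G`. -/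
theorem result :
    (∀ δ : ℝ, 0 < δ → ∃ τ : ℝ, 0 < τ ∧ τ ≤ 1 ∧
      ∀ fs : List (ℕ → ℕ), (∀ f ∈ fs, PD f) → ∀ (G : ℕ → ℝ) (d : ℝ), Expanding G d → ∀ κ : ℝ, 0 ≤ κ →
      d * (1 - τ) + κ < 1 → ∀ 𝒜 : Set ℕ, ∃ c K : ℝ, 0 < c ∧ ∀ N : ℕ, 1 ≤ N →
      ({m : ℕ | 1 ≤ m ∧ m ≤ N ∧ ¬ ∀ p : ℕ, p.Prime → |(p : ℝ) - G (comp fs m)| ≤ (comp fs m : ℝ) ^ κ →
        Good δ τ 𝒜 p}.ncard : ℝ) ≤ K * N * Real.exp (-(c * Real.log N ^ ((1 : ℝ) / (fs.length + 1))))) ∧
    ((∀ f : ℕ → ℕ, (∀ a b : ℕ, Nat.Coprime a b → f (a * b) = f a + f b) →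
        (∃ C : ℕ, ∀ q j : ℕ, q.Prime → 1 ≤ j → f (q ^ j) ≤ C * q ^ j) →
        (∃ P : ℕ, ∀ p q : ℕ, p.Prime → q.Prime → P ≤ p → P ≤ q → f p = f q → p = q) → PD f) ∧
      PD (fun n => n.primeFactors.sup id) ∧ PD (fun n => sInf {k : ℕ | n ∣ k.factorial})) ∧
    ∀ b d : ℝ, 0 < b → 1 ≤ d → Expanding (fun v => b * (v : ℝ) ^ d) d := by
  refine ⟨fun δ hδ => ?_, ⟨fun f h1 h2 h3 => pd_additive h1 h2 h3, pd_largest, pd_kempner⟩,
    fun b d hb hd => expanding_pow hb hd⟩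
  obtain ⟨τ, C, hτ, hτ1, hcount⟩ := count δ hδ
  refine ⟨τ, hτ, hτ1, fun fs hfs G d hG κ hκ h1 𝒜 => ?_⟩
  obtain ⟨c, K, hc, hN₀⟩ := good_nat Nat.Prime (Good δ τ 𝒜) fs hfs hG (s := 1 - τ) (κ := κ) (by linarith) hκ h1
    (fun ε hε => by
      refine ⟨|C|, fun X hX => (hcount 𝒜 X hX).trans ?_⟩
      have hX1 : (1 : ℝ) ≤ X := by exact_mod_cast hX
      refine mul_le_mul (le_abs_self C) (Real.rpow_le_rpow_of_exponent_le hX1 (by linarith)) ?_ (abs_nonneg C)
      exact Real.rpow_nonneg (by linarith) _)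
  refine ⟨c, K, hc, fun N hN => le_trans (le_of_eq ?_) (hN₀ N hN)⟩
  congr 2
  ext m
  simp only [Set.mem_ofPred_eq]
  have : (∀ p : ℕ, p.Prime → |(p : ℝ) - G (comp fs m)| ≤ (comp fs m : ℝ) ^ κ → Good δ τ 𝒜 p) ↔
      ∀ p : ℕ, 1 ≤ p → p.Prime → |(p : ℝ) - G (comp fs m)| ≤ (comp fs m : ℝ) ^ κ → Good δ τ 𝒜 p :=
    ⟨fun h p _ => h p, fun h p hp => h p hp.one_lt.le hp⟩
  rw [this]

end Pool.Agent.Results.MP_cb27ba_nt.AdditiveValues
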