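import Pool.Agent.Run7.h605.PG.Core

/-! # Equivalent forms of the power saving for character sums over difference sets

`χ` is even if `χ (-1) = 1` and odd if `χ (-1) = -1`.

1. For odd characters the sum of the question is zero. So the question is a question about even
   characters only.
2. One set controls two sets, exponent by exponent: if `|∑_{a, b ∈ A} χ(a - b)| ≤ p^(-τ) |A|^2` for all
   `A` with more than `p^ε` elements (all even nonprincipal `χ`, all large `p`), and `ε < ε'`,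
   `δ < min (τ, 2 (ε' - ε))`, then
   `|∑_{x ∈ A_1 × … × A_k} f(x) g(x) χ(x_i - x_j)| ≤ p^(-δ) |A_1| ⋯ |A_k|` for all `k`, all sets with
   `|A_i|, |A_j| > p^ε'` and all `f`, `g` bounded by one such that `f` does not depend on `x_j` and `g`
   does not depend on `x_i`. For `k = 2` these are bilinear forms with arbitrary weights.
3. The question is equivalent to the Paley graph conjecture for two sets and even characters
   (`MP_f6e9a2_nt`), to power savings for all products of arbitrary characters of the differences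
   `x_i - x_j`, `i < j`, one of which is even and nonprincipal, to its form for single sizes `⌈p^β⌉`,
   and to its form for one set which is an additive and multiplicative `B_h` set, for sums. -/

set_option autoImplicit false

namespace Pool.Agent.Results.MP_cb27ba_nt.EquivalentForms

open Finset

/-- the statement of the page -/
def Question : Prop :=
  ∀ δ : ℝ, 0 < δ → ∃ τ : ℝ, 0 < τ ∧ ∃ P : ℕ, ∀ p : ℕ, p.Prime → P ≤ p →
    ∀ A : Finset (ZMod p), (p : ℝ) ^ δ < (A.card : ℝ) →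
      ∀ χ : DirichletCharacter ℂ p, χ ≠ 1 →
        ‖∑ a ∈ A, ∑ b ∈ A, χ (a - b)‖ < (A.card : ℝ) ^ (2 - τ)

/-- One set: `|∑_{a, b ∈ A} χ(a - b)| ≤ p^(-τ) |A|^2` for all sets with more than `p^ε` elements and
all even nonprincipal characters, for all large `p`. -/
def OneSet (ε τ : ℝ) : Prop :=
  ∃ p₀ : ℕ, ∀ p : ℕ, p.Prime → p₀ < p → ∀ A : Finset (ZMod p), (p : ℝ) ^ ε < (A.card : ℝ) →
    ∀ χ : DirichletCharacter ℂ p, χ ≠ 1 → χ (-1) = 1 →
      ‖∑ a ∈ A, ∑ b ∈ A, χ (a - b)‖ ≤ (p : ℝ) ^ (-τ) * (A.card : ℝ) ^ 2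

/-- Multilinear forms: `f` and `g` are bounded by one, `f` does not depend on the coordinate `j` and
`g` does not depend on the coordinate `i`; only the sets `A i` and `A j` have to be large. -/
def Multilinear (ε δ : ℝ) : Prop :=
  ∃ p₀ : ℕ, ∀ p : ℕ, p.Prime → p₀ < p → ∀ (k : ℕ) (A : Fin k → Finset (ZMod p)) (i j : Fin k),
    i ≠ j → (p : ℝ) ^ ε < ((A i).card : ℝ) → (p : ℝ) ^ ε < ((A j).card : ℝ) →
    ∀ χ : DirichletCharacter ℂ p, χ ≠ 1 → χ (-1) = 1 →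
    ∀ f g : (Fin k → ZMod p) → ℂ, (∀ x, ‖f x‖ ≤ 1) → (∀ x, ‖g x‖ ≤ 1) →
      (∀ x b, f (Function.update x j b) = f x) → (∀ x a, g (Function.update x i a) = g x) →
      ‖∑ x ∈ Fintype.piFinset A, f x * g x * χ (x i - x j)‖ ≤
        (p : ℝ) ^ (-δ) * ∏ l, ((A l).card : ℝ)

/-- Two sets: `|∑_{a ∈ A, b ∈ B} χ(a + b)| ≤ p^(-δ) |A| |B|` for all sets with more than `p^ε` elements
and all even nonprincipal characters. -/
def TwoSets (ε δ : ℝ) : Prop :=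
  ∃ p₀ : ℕ, ∀ p : ℕ, p.Prime → p₀ < p → ∀ A B : Finset (ZMod p),
    (p : ℝ) ^ ε < (A.card : ℝ) → (p : ℝ) ^ ε < (B.card : ℝ) →
      ∀ χ : DirichletCharacter ℂ p, χ ≠ 1 → χ (-1) = 1 →
        ‖∑ a ∈ A, ∑ b ∈ B, χ (a + b)‖ ≤ (p : ℝ) ^ (-δ) * (A.card : ℝ) * (B.card : ℝ)

/-- Products over all pairs: `ψ i j`, `i < j`, are arbitrary characters, one of them is even and
nonprincipal, and the two sets which belong to it have more than `p^ε` elements. -/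
def AllPairs (ε δ : ℝ) : Prop :=
  ∃ p₀ : ℕ, ∀ p : ℕ, p.Prime → p₀ < p → ∀ (k : ℕ) (A : Fin k → Finset (ZMod p))
    (ψ : Fin k → Fin k → DirichletCharacter ℂ p) (i j : Fin k), i < j →
    (p : ℝ) ^ ε < ((A i).card : ℝ) → (p : ℝ) ^ ε < ((A j).card : ℝ) →
    ψ i j ≠ 1 → ψ i j (-1) = 1 →
      ‖∑ x ∈ Fintype.piFinset A, ∏ e : Fin k × Fin k with e.1 < e.2,
          ψ e.1 e.2 (x e.1 - x e.2)‖ ≤ (p : ℝ) ^ (-δ) * ∏ l, ((A l).card : ℝ)

/-- Two sets of exactly `⌈p^β⌉` elements, even characters. -/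
def SingleSize (β δ : ℝ) : Prop :=
  ∃ p₀ : ℕ, ∀ p : ℕ, p.Prime → p₀ < p → ∀ A B : Finset (ZMod p),
    A.card = ⌈(p : ℝ) ^ β⌉₊ → B.card = ⌈(p : ℝ) ^ β⌉₊ →
      ∀ χ : DirichletCharacter ℂ p, χ ≠ 1 → χ (-1) = 1 →
        ‖∑ a ∈ A, ∑ b ∈ B, χ (a + b)‖ ≤ (p : ℝ) ^ (-δ) * (A.card : ℝ) * (B.card : ℝ)

/-- One set `A` with more than `p^ε` elements, even characters, sums `a + b`; all sums of `h` elements
of `A` are different, and all products of `h` elements of `A`, up to the order. -/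
def SidonSet (h : ℕ) (ε δ : ℝ) : Prop :=
  ∃ p₀ : ℕ, ∀ p : ℕ, p.Prime → p₀ < p → ∀ A : Finset (ZMod p), (p : ℝ) ^ ε < (A.card : ℝ) →
    (∀ s t : Multiset (ZMod p), Multiset.card s = h → Multiset.card t = h →
      (∀ x ∈ s, x ∈ A) → (∀ x ∈ t, x ∈ A) → s.sum = t.sum → s = t) →
    (∀ s t : Multiset (ZMod p), Multiset.card s = h → Multiset.card t = h →
      (∀ x ∈ s, x ∈ A) → (∀ x ∈ t, x ∈ A) → s.prod = t.prod → s = t) →
      ∀ χ : DirichletCharacter ℂ p, χ ≠ 1 → χ (-1) = 1 →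
        ‖∑ a ∈ A, ∑ b ∈ A, χ (a + b)‖ ≤ (p : ℝ) ^ (-δ) * (A.card : ℝ) ^ 2

theorem result :
    -- 1. odd characters
    (∀ (p : ℕ) (χ : DirichletCharacter ℂ p), χ (-1) = -1 → ∀ A : Finset (ZMod p),
      ∑ a ∈ A, ∑ b ∈ A, χ (a - b) = 0) ∧
    -- 2. one set controls multilinear forms, exponent by exponent
    (∀ ε ε' τ δ : ℝ, 0 ≤ ε → ε < ε' → δ < min τ (2 * (ε' - ε)) → OneSet ε τ → Multilinear ε' δ) ∧
    -- 3. equivalent forms of the question
    (Question ↔ ∀ ε : ℝ, 0 < ε → ∃ δ : ℝ, 0 < δ ∧ TwoSets ε δ) ∧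
    (Question ↔ ∀ ε : ℝ, 0 < ε → ∃ δ : ℝ, 0 < δ ∧ Multilinear ε δ) ∧
    (Question ↔ ∀ ε : ℝ, 0 < ε → ∃ δ : ℝ, 0 < δ ∧ AllPairs ε δ) ∧
    (Question ↔ ∀ γ : ℝ, 0 < γ → γ ≤ 1 / 2 →
      ∃ β δ : ℝ, γ < β ∧ β < 2 * γ ∧ β - γ < δ ∧ SingleSize β δ) ∧
    (∀ h : ℕ, 1 ≤ h → (Question ↔ ∀ ε : ℝ, 0 < ε → ∃ δ : ℝ, 0 < δ ∧ SidonSet h ε δ)) := by
  refine ⟨fun p χ hχ A => Run7.h605.PG.q_odd χ hχ A,
    fun ε ε' τ δ h0 h1 h2 H => Run7.h605.PG.multi_of_cut (Run7.h605.PG.cut_of_oneSet h0 h2 h1 H),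
    Run7.h605.PG.q1_iff_saves, ?_, Run7.h605.PG.q1_iff_pairs, ?_, ?_⟩
  · constructor
    · intro h ε hε
      obtain ⟨δ, hδ, H⟩ := Run7.h605.PG.cut_all (Run7.h605.PG.oneSet_of_q1 h) ε hε
      exact ⟨δ, hδ, Run7.h605.PG.multi_of_cut H⟩
    · intro h
      refine Run7.h605.PG.q1_iff_pairs.2 fun ε hε => ?_
      obtain ⟨δ, hδ, H⟩ := h ε hε
      exact ⟨δ, hδ, Run7.h605.PG.pairs_of_multi H⟩
  · exact Run7.h605.PG.q1_iff_saves.trans
      (Run7.h605.PG.saves_iff_oneSize Run7.h605.PG.EvenChar)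
  · intro h hh
    obtain ⟨k, rfl⟩ : ∃ k, h = k + 1 := ⟨h - 1, by omega⟩
    exact Run7.h605.PG.q1_iff_saves.trans
      (Pool.Agent.N793.GP.exists_savesB (F := Run7.h605.PG.EvenChar) k)

end Pool.Agent.Results.MP_cb27ba_nt.EquivalentForms
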