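import Pool.Agent.N251.LF.Win
import Pool.Agent.Results.MP_cb27ba_nt.InitialSegments

/-!
# The initial segments of arbitrary sets of integers for ALL primes near the values of generic linear forms

Let `v_i`, `i` in a countable set, be vectors in `ℝ^k` such that for every `ε > 0` at most `C X ^ (σ + ε)` of them have norm at
most `X`; for instance all `(b_1^(n_1), …, b_k^(n_k))` with `b_j > 1` (`σ = 0`), all `(1, n, …, n^d)` (`σ = 1 / d`), or all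
`(n_1^(a_1), …, n_k^(a_k))` (`σ` the sum of the `1 / a_j`). Let `𝒜` be any set of nonnegative integers (no condition on its
structure or energy) and let `𝒜(p)` be the set of its elements below the prime `p`. For every `δ > 0` there is `τ > 0`
(independent of the family and of `𝒜`) such that for all `0 ≤ θ < 1` and all `α` in `ℝ^k` outside a set of Hausdorff dimension at
most `k - 1 + (1 - τ + σ) / (1 - θ)`, for all `w` and all but finitely many `i`, ALL primes `p` with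
`|p - (α_1 v_(i,1) + … + α_k v_(i,k))| ≤ w |v_i|^θ` and `|𝒜(p)| ≥ p ^ δ` satisfy the bound of the question for the quadratic
character and all subsets `A` of `𝒜(p)` with at least `|𝒜(p)| ^ (1 - τ)` elements: `|∑_{a, b ∈ A} (a - b | p)| < |A| ^ (2 - τ)`.
One exceptional set of `α` suffices for countably many sets `𝒜`. For `θ < τ - σ` the dimension is less than `k`, and the
statement holds for almost all `α`. (The starting files treat the primes near `G (f m)`, `f` multiplicative, near functions of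
the denominators of good approximations, and near the orbits of the totient.)

Proof. The number of the exceptional primes `p ≤ X` is at most `X ^ (1 - τ)`, uniformly in `𝒜` (the starting theorem
`InitialSegments`). The `α` for which an exceptional prime is in the window of `v_i` form a union of slabs; the slabs are
covered by few small cubes (`Pool.Agent.N251.LF.Win`).
-/

set_option autoImplicit false

namespace Pool.Agent.Results.MP_cb27ba_nt.GenericLinearForms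

open Finset
open Pool.Agent.N251.LF (Fam Sq linear_good_nat examples)

open scoped Classical in
/-- the elements of `𝒜` below `p` -/
noncomputable def seg (𝒜 : Set ℕ) (p : ℕ) : Finset ℕ := (range p).filter (fun n => n ∈ 𝒜)

/-- the sum of the Legendre symbols of the differences -/
noncomputable def S (p : ℕ) (A : Finset ℕ) : ℝ := ∑ a ∈ A, ∑ b ∈ A, (jacobiSym ((a : ℤ) - b) p : ℝ)

/-- the bound of the question, with saving `τ`, for the quadratic character modulo `p` and all subsets of `𝒜(p)` with at least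
`|𝒜(p)| ^ (1 - τ)` elements, if `|𝒜(p)| ≥ p ^ δ` -/
def Good (δ τ : ℝ) (𝒜 : Set ℕ) (p : ℕ) : Prop :=
  (p : ℝ) ^ δ ≤ (seg 𝒜 p).card → ∀ A ⊆ seg 𝒜 p, ((seg 𝒜 p).card : ℝ) ^ (1 - τ) ≤ A.card →
    |S p A| < (A.card : ℝ) ^ (2 - τ)

/-- the number of the exceptional primes, uniformly in `𝒜` -/
lemma count (δ : ℝ) (hδ : 0 < δ) : ∃ τ C : ℝ, 0 < τ ∧ τ ≤ 1 ∧ ∀ (𝒜 : Set ℕ) (X : ℕ), 1 ≤ X →
    ({t : ℕ | 1 ≤ t ∧ t ≤ X ∧ (t.Prime ∧ ¬ Good δ τ 𝒜 t)}.ncard : ℝ) ≤ C * (X : ℝ) ^ (1 - τ) := by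
  obtain ⟨τ', hτ', Q₀, hQ₀⟩ := InitialSegments.result δ hδ
  obtain ⟨τ, hτd⟩ : ∃ τ, τ = min τ' 1 := ⟨_, rfl⟩
  have hτ : 0 < τ := by rw [hτd]; exact lt_min hτ' one_pos
  have hτ1 : τ ≤ 1 := by rw [hτd]; exact min_le_right _ _
  have hττ : τ ≤ τ' := by rw [hτd]; exact min_le_left _ _
  refine ⟨τ, (Q₀ : ℝ) + 1, hτ, hτ1, fun 𝒜 X hX => ?_⟩
  have hkey : ∀ Q : ℕ, Q₀ ≤ Q → 1 ≤ Q →
      ({p : ℕ | 1 ≤ p ∧ p ≤ Q ∧ (p.Prime ∧ ¬ Good δ τ 𝒜 p)}.ncard : ℝ) ≤ (Q : ℝ) ^ (1 - τ) := by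
    intro Q hQ hQ1
    have h := hQ₀ Q hQ 𝒜
    have hQ1' : (1 : ℝ) ≤ Q := by exact_mod_cast hQ1
    have hfin : {p : ℕ | p.Prime ∧ p ≤ Q ∧ (p : ℝ) ^ δ ≤ (InitialSegments.seg 𝒜 p).card ∧ ∃ A ⊆ InitialSegments.seg 𝒜 p,
        ((InitialSegments.seg 𝒜 p).card : ℝ) ^ (1 - τ') ≤ A.card ∧ (A.card : ℝ) ^ (2 - τ') ≤ |InitialSegments.S p A|}.Finite :=
      (Set.finite_Iic Q).subset (fun p hp => hp.2.1)
    have hsub : {p : ℕ | 1 ≤ p ∧ p ≤ Q ∧ (p.Prime ∧ ¬ Good δ τ 𝒜 p)} ⊆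
        {p : ℕ | p.Prime ∧ p ≤ Q ∧ (p : ℝ) ^ δ ≤ (InitialSegments.seg 𝒜 p).card ∧ ∃ A ⊆ InitialSegments.seg 𝒜 p,
        ((InitialSegments.seg 𝒜 p).card : ℝ) ^ (1 - τ') ≤ A.card ∧ (A.card : ℝ) ^ (2 - τ') ≤ |InitialSegments.S p A|} := by
      rintro p ⟨g1, g2, g3, g4⟩
      unfold Good at g4
      push Not at g4
      obtain ⟨g5, A, g6, g7, g8⟩ := g4
      refine ⟨g3, g2, g5, A, g6, ?_, ?_⟩
      · have hp0 : (0 : ℝ) < (p : ℝ) ^ δ := Real.rpow_pos_of_pos (by exact_mod_cast g3.pos) _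
        have hc0 : 0 < (seg 𝒜 p).card := by
          have : (0 : ℝ) < (seg 𝒜 p).card := lt_of_lt_of_le hp0 g5
          exact_mod_cast this
        have hc1 : (1 : ℝ) ≤ (seg 𝒜 p).card := by exact_mod_cast hc0
        refine le_trans ?_ g7
        exact Real.rpow_le_rpow_of_exponent_le hc1 (by linarith)
      · have hp0 : (0 : ℝ) < (p : ℝ) ^ δ := Real.rpow_pos_of_pos (by exact_mod_cast g3.pos) _
        have hc0 : (0 : ℝ) < (seg 𝒜 p).card := lt_of_lt_of_le hp0 g5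
        have hA0 : (0 : ℝ) < A.card := lt_of_lt_of_le (Real.rpow_pos_of_pos hc0 _) g7
        have hA0' : 0 < A.card := by exact_mod_cast hA0
        have hA1 : (1 : ℝ) ≤ A.card := by exact_mod_cast hA0'
        refine le_trans ?_ g8
        exact Real.rpow_le_rpow_of_exponent_le hA1 (by linarith)
    calc ({p : ℕ | 1 ≤ p ∧ p ≤ Q ∧ (p.Prime ∧ ¬ Good δ τ 𝒜 p)}.ncard : ℝ) ≤ _ := by
          exact_mod_cast Set.ncard_le_ncard hsub hfin
      _ ≤ (Q : ℝ) ^ (1 - τ') := h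
      _ ≤ (Q : ℝ) ^ (1 - τ) := Real.rpow_le_rpow_of_exponent_le hQ1' (by linarith)
  have hX1 : (1 : ℝ) ≤ X := by exact_mod_cast hX
  have hXs : (1 : ℝ) ≤ (X : ℝ) ^ (1 - τ) := Real.one_le_rpow hX1 (by linarith)
  rcases le_total Q₀ X with h3 | h3
  · refine (hkey X h3 hX).trans ?_
    have : (0 : ℝ) ≤ Q₀ := Nat.cast_nonneg _
    nlinarith
  · have hsub : {t : ℕ | 1 ≤ t ∧ t ≤ X ∧ (t.Prime ∧ ¬ Good δ τ 𝒜 t)} ⊆ (Icc 1 X : Finset ℕ) := by
      rintro t ⟨g1, g2, -⟩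
      rw [Finset.mem_coe, mem_Icc]
      exact ⟨g1, g2⟩
    have h4 : {t : ℕ | 1 ≤ t ∧ t ≤ X ∧ (t.Prime ∧ ¬ Good δ τ 𝒜 t)}.ncard ≤ X := by
      refine (Set.ncard_le_ncard hsub (Finset.finite_toSet _)).trans ?_
      rw [Set.ncard_coe_finset, Nat.card_Icc]
      omega
    have h5 : ({t : ℕ | 1 ≤ t ∧ t ≤ X ∧ (t.Prime ∧ ¬ Good δ τ 𝒜 t)}.ncard : ℝ) ≤ (Q₀ : ℝ) := by
      exact_mod_cast h4.trans h3
    have : (0 : ℝ) ≤ Q₀ := Nat.cast_nonneg _
    nlinarith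

/-- **Theorem.** (1) For every `δ > 0` there is `τ` in `(0, 1]` with the following property. Let the family `v` of vectors in
`ℝ^k` have at most `C X ^ (σ + ε)` members of norm at most `X` for every `ε > 0` (`Fam v σ`), `σ ≥ 0`, `0 ≤ θ < 1`, and let
`𝒜_0, 𝒜_1, …` be ANY sets of nonnegative integers. For all `α` in `ℝ^k` outside ONE set `E` of Hausdorff dimension at most
`k - 1 + (1 - τ + σ) / (1 - θ)`, for all `j` and all `w`, for all but finitely many `i` ALL primes `p` with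
`|p - ∑ α_l v_(i,l)| ≤ w ‖v_i‖ ^ θ` are good for `𝒜_j`. If `θ < τ - σ`, then `E` has dimension less than `k` and measure zero.
(2) Examples of families. -/
theorem result :
    (∀ δ : ℝ, 0 < δ → ∃ τ : ℝ, 0 < τ ∧ τ ≤ 1 ∧
      ∀ (k : ℕ) (ι : Type) (v : ι → Fin k → ℝ) (σ θ : ℝ), 0 ≤ σ → 0 ≤ θ → θ < 1 → Fam v σ → ∀ 𝒜 : ℕ → Set ℕ,
      ∃ E : Set (Fin k → ℝ), dimH E ≤ ENNReal.ofReal ((k : ℝ) - 1 + (1 - τ + σ) / (1 - θ)) ∧
        (1 ≤ k → θ < τ - σ → dimH E < (k : ENNReal) ∧ MeasureTheory.volume E = 0) ∧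
        ∀ α, α ∉ E → ∀ (j : ℕ) (w : ℝ),
          {i | ¬ ∀ p : ℕ, p.Prime → |(p : ℝ) - ∑ l, α l * v i l| ≤ w * ‖v i‖ ^ θ → Good δ τ (𝒜 j) p}.Finite) ∧
    (∀ d : ℕ, 1 ≤ d → Fam (fun (n : ℕ) (j : Fin (d + 1)) => (n : ℝ) ^ (j : ℕ)) (1 / d)) ∧
    (∀ (k : ℕ) (b : Fin k → ℝ), (∀ j, 1 < b j) → Fam (fun (n : Fin k → ℕ) (j : Fin k) => b j ^ n j) 0) ∧
    (∀ (k : ℕ) (a : Fin k → ℝ), (∀ j, 0 < a j) →
      Fam (fun (n : Fin k → ℕ) (j : Fin k) => (n j : ℝ) ^ a j) (∑ j, 1 / a j)) ∧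
    ∀ (k : ℕ) (u : Fin k → ℕ → ℝ) (τ : Fin k → ℝ), (∀ j, Sq (u j) (τ j)) →
      Fam (fun (n : Fin k → ℕ) (j : Fin k) => u j (n j)) (∑ j, τ j) := by
  refine ⟨?_, examples⟩
  intro δ hδ
  obtain ⟨τ, C, hτ, hτ1, hcount⟩ := count δ hδ
  refine ⟨τ, hτ, hτ1, fun k ι v σ θ hσ hθ0 hθ hv 𝒜 => ?_⟩
  have key : ∀ j : ℕ, ∃ E : Set (Fin k → ℝ), dimH E ≤ ENNReal.ofReal ((k : ℝ) - 1 + (1 - τ + σ) / (1 - θ)) ∧
      ∀ α, α ∉ E → ∀ w : ℝ,
        {i | ¬ ∀ p : ℕ, 1 ≤ p → p.Prime → |(p : ℝ) - ∑ l, α l * v i l| ≤ w * ‖v i‖ ^ θ → Good δ τ (𝒜 j) p}.Finite := by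
    intro j
    refine linear_good_nat Nat.Prime (Good δ τ (𝒜 j)) v (s := 1 - τ) (by linarith) hσ hθ hv ?_
    intro ε hε
    refine ⟨|C|, fun X hX => (hcount (𝒜 j) X hX).trans ?_⟩
    have hX1 : (1 : ℝ) ≤ X := by exact_mod_cast hX
    refine mul_le_mul (le_abs_self C) (Real.rpow_le_rpow_of_exponent_le hX1 (by linarith)) ?_ (abs_nonneg C)
    exact Real.rpow_nonneg (by linarith) _
  choose E hE hE2 using key
  have hU : dimH (⋃ j, E j) ≤ ENNReal.ofReal ((k : ℝ) - 1 + (1 - τ + σ) / (1 - θ)) := by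
    rw [dimH_iUnion]
    exact iSup_le hE
  refine ⟨⋃ j, E j, hU, fun hk hlt => ?_, fun α hα j w => (hE2 j α (fun h => hα (Set.mem_iUnion.2 ⟨j, h⟩)) w).subset ?_⟩
  · have h1 : (1 - τ + σ) / (1 - θ) < 1 := by
      rw [div_lt_one (by linarith)]
      linarith
    have hkr : (1 : ℝ) ≤ k := by exact_mod_cast hk
    have h2 : dimH (⋃ j, E j) < (k : ENNReal) := by
      refine lt_of_le_of_lt hU ?_
      rw [← ENNReal.ofReal_natCast, ENNReal.ofReal_lt_ofReal_iff (by linarith)]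
      linarith
    refine ⟨h2, ?_⟩
    have h3 : dimH (⋃ j, E j) < ((k : NNReal) : ENNReal) := by simpa using h2
    have h4 := hausdorffMeasure_of_dimH_lt h3
    have h5 : (MeasureTheory.Measure.hausdorffMeasure ((Fintype.card (Fin k) : ℕ) : ℝ) : MeasureTheory.Measure (Fin k → ℝ)) =
        MeasureTheory.volume := MeasureTheory.hausdorffMeasure_pi_real
    rw [← h5, Fintype.card_fin]
    simpa using h4
  · intro i hi
    simp only [Set.mem_ofPred_eq] at hi ⊢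
    intro h
    apply hi
    intro p hp hw
    exact h p hp.one_lt.le hp hw

end Pool.Agent.Results.MP_cb27ba_nt.GenericLinearForms
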