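import Pool.Agent.Run7.h95.FAM.Star
import Pool.Agent.Results.MP_cb27ba_nt.InitialSegments

/-!
# The initial segments of arbitrary sets of integers for ALL primes near powers, orbits and other sequences

Let `f_k`, `k = 0, 1, 2, …`, be positive functions on `(a₀, ∞)`, `a₀ ≥ 0`, such that `f_k(t) / t` is nondecreasing, and such
that the sequence `f_k(t)` has exponent of convergence at most `σ` for each `t > a₀`: for instance `f_k(t) = v_k t`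
(dilatations; `σ` the exponent of convergence of `v_k > 0`), `f_k(t) = t ^ (v_k)` for exponents `v_k ≥ 1` (`σ = 0`), or the
orbits `f_k(t) = g (g (⋯ g (t)))` of any map `g` with `g(t) > t` and `g(t) / t` nondecreasing (`σ = 0`). Let `𝒜` be any set of
nonnegative integers (no condition on its structure or energy) and let `𝒜(p)` be the set of its elements below the prime `p`.
For every `δ > 0` there is `τ > 0` (independent of `f_k` and `𝒜`) such that for `θ < 1` and all `α > a₀` outside a set of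
Hausdorff dimension at most `(1 - τ + σ) / (1 - θ)` and each `w`, for all but finitely many `k`, ALL primes `p` with
`|p - f_k(α)| ≤ w f_k(α) ^ θ` and `|𝒜(p)| ≥ p ^ δ` satisfy the bound of the question for the quadratic character and all subsets
`A` of `𝒜(p)` with at least `|𝒜(p)| ^ (1 - τ)` elements: `|∑_{a, b ∈ A} (a - b | p)| < |A| ^ (2 - τ)`. One exceptional set of `α`
suffices for countably many sets `𝒜`.

Proof. The number of the exceptional primes `p ≤ X` is at most `X ^ (1 - τ)`, uniformly in `𝒜` (the starting theorem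
`InitialSegments`); the covering argument is in the starting file `Pool.Agent.R482.ST.Star`.
-/

set_option autoImplicit false

namespace Pool.Agent.Results.MP_cb27ba_nt.StarshapedPrimes

open Finset

/-- the functions `f n` are positive on `(a, ∞)`, `a ≥ 0`, and `f n x / x` is nondecreasing there -/
def Starshaped (a : ℝ) (f : ℕ → ℝ → ℝ) : Prop :=
  0 ≤ a ∧ ∀ n : ℕ, ∀ x y : ℝ, a < x → x ≤ y → 0 < f n x ∧ f n x / x ≤ f n y / y

/-- for each `x > a` the exponent of convergence of the sequence `f n x` is at most `τ` -/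
def ExpLe (a : ℝ) (f : ℕ → ℝ → ℝ) (τ : ℝ) : Prop :=
  ∀ x : ℝ, a < x → ∀ t : ℝ, τ < t → Summable (fun n : ℕ => (f n x) ^ (-t))

open scoped Classical in
/-- the elements of `𝒜` below `p` -/
noncomputable def seg (𝒜 : Set ℕ) (p : ℕ) : Finset ℕ := (range p).filter (fun n => n ∈ 𝒜)

/-- the sum of the Legendre symbols of the differences -/
noncomputable def S (p : ℕ) (A : Finset ℕ) : ℝ := ∑ a ∈ A, ∑ b ∈ A, (jacobiSym ((a : ℤ) - b) p : ℝ)

/-- the bound of the question, with saving `τ`, for the quadratic character modulo `p` and all subsets of `𝒜(p)` with at least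
`|𝒜(p)| ^ (1 - τ)` elements, if `|𝒜(p)| ≥ p ^ δ` -/
def Good (δ τ : ℝ) (𝒜 : Set ℕ) (p : ℕ) : Prop :=
  (p : ℝ) ^ δ ≤ (seg 𝒜 p).card → ∀ A ⊆ seg 𝒜 p, ((seg 𝒜 p).card : ℝ) ^ (1 - τ) ≤ A.card →
    |S p A| < (A.card : ℝ) ^ (2 - τ)

/-- the number of the exceptional primes, uniformly in `𝒜` -/
lemma count (δ : ℝ) (hδ : 0 < δ) : ∃ τ C : ℝ, 0 < τ ∧ τ ≤ 1 ∧ ∀ (𝒜 : Set ℕ) (X : ℕ), 1 ≤ X →
    ({t : ℕ | 1 ≤ t ∧ t ≤ X ∧ (t.Prime ∧ ¬ Good δ τ 𝒜 t)}.ncard : ℝ) ≤ C * (X : ℝ) ^ (1 - τ) := by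
  obtain ⟨τ', hτ', Q₀, hQ₀⟩ := InitialSegments.result δ hδ
  obtain ⟨τ, hτd⟩ : ∃ τ, τ = min τ' 1 := ⟨_, rfl⟩
  have hτ : 0 < τ := by rw [hτd]; exact lt_min hτ' one_pos
  have hτ1 : τ ≤ 1 := by rw [hτd]; exact min_le_right _ _
  have hττ : τ ≤ τ' := by rw [hτd]; exact min_le_left _ _
  refine ⟨τ, (Q₀ : ℝ) + 1, hτ, hτ1, fun 𝒜 X hX => ?_⟩
  have hkey : ∀ Q : ℕ, Q₀ ≤ Q → 1 ≤ Q →
      ({p : ℕ | 1 ≤ p ∧ p ≤ Q ∧ (p.Prime ∧ ¬ Good δ τ 𝒜 p)}.ncard : ℝ) ≤ (Q : ℝ) ^ (1 - τ) := by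
    intro Q hQ hQ1
    have h := hQ₀ Q hQ 𝒜
    have hQ1' : (1 : ℝ) ≤ Q := by exact_mod_cast hQ1
    have hfin : {p : ℕ | p.Prime ∧ p ≤ Q ∧ (p : ℝ) ^ δ ≤ (InitialSegments.seg 𝒜 p).card ∧ ∃ A ⊆ InitialSegments.seg 𝒜 p,
        ((InitialSegments.seg 𝒜 p).card : ℝ) ^ (1 - τ') ≤ A.card ∧ (A.card : ℝ) ^ (2 - τ') ≤ |InitialSegments.S p A|}.Finite :=
      (Set.finite_Iic Q).subset (fun p hp => hp.2.1)
    have hsub : {p : ℕ | 1 ≤ p ∧ p ≤ Q ∧ (p.Prime ∧ ¬ Good δ τ 𝒜 p)} ⊆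
        {p : ℕ | p.Prime ∧ p ≤ Q ∧ (p : ℝ) ^ δ ≤ (InitialSegments.seg 𝒜 p).card ∧ ∃ A ⊆ InitialSegments.seg 𝒜 p,
        ((InitialSegments.seg 𝒜 p).card : ℝ) ^ (1 - τ') ≤ A.card ∧ (A.card : ℝ) ^ (2 - τ') ≤ |InitialSegments.S p A|} := by
      rintro p ⟨g1, g2, g3, g4⟩
      unfold Good at g4
      push Not at g4
      obtain ⟨g5, A, g6, g7, g8⟩ := g4
      refine ⟨g3, g2, g5, A, g6, ?_, ?_⟩
      · have hp0 : (0 : ℝ) < (p : ℝ) ^ δ := Real.rpow_pos_of_pos (by exact_mod_cast g3.pos) _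
        have hc0 : 0 < (seg 𝒜 p).card := by
          have : (0 : ℝ) < (seg 𝒜 p).card := lt_of_lt_of_le hp0 g5
          exact_mod_cast this
        have hc1 : (1 : ℝ) ≤ (seg 𝒜 p).card := by exact_mod_cast hc0
        refine le_trans ?_ g7
        exact Real.rpow_le_rpow_of_exponent_le hc1 (by linarith)
      · have hp0 : (0 : ℝ) < (p : ℝ) ^ δ := Real.rpow_pos_of_pos (by exact_mod_cast g3.pos) _
        have hc0 : (0 : ℝ) < (seg 𝒜 p).card := lt_of_lt_of_le hp0 g5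
        have hA0 : (0 : ℝ) < A.card := lt_of_lt_of_le (Real.rpow_pos_of_pos hc0 _) g7
        have hA0' : 0 < A.card := by exact_mod_cast hA0
        have hA1 : (1 : ℝ) ≤ A.card := by exact_mod_cast hA0'
        refine le_trans ?_ g8
        exact Real.rpow_le_rpow_of_exponent_le hA1 (by linarith)
    calc ({p : ℕ | 1 ≤ p ∧ p ≤ Q ∧ (p.Prime ∧ ¬ Good δ τ 𝒜 p)}.ncard : ℝ) ≤ _ := by
          exact_mod_cast Set.ncard_le_ncard hsub hfin
      _ ≤ (Q : ℝ) ^ (1 - τ') := h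
      _ ≤ (Q : ℝ) ^ (1 - τ) := Real.rpow_le_rpow_of_exponent_le hQ1' (by linarith)
  have hX1 : (1 : ℝ) ≤ X := by exact_mod_cast hX
  have hXs : (1 : ℝ) ≤ (X : ℝ) ^ (1 - τ) := Real.one_le_rpow hX1 (by linarith)
  rcases le_total Q₀ X with h3 | h3
  · refine (hkey X h3 hX).trans ?_
    have : (0 : ℝ) ≤ Q₀ := Nat.cast_nonneg _
    nlinarith
  · have hsub : {t : ℕ | 1 ≤ t ∧ t ≤ X ∧ (t.Prime ∧ ¬ Good δ τ 𝒜 t)} ⊆ (Icc 1 X : Finset ℕ) := by
      rintro t ⟨g1, g2, -⟩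
      rw [Finset.mem_coe, mem_Icc]
      exact ⟨g1, g2⟩
    have h4 : {t : ℕ | 1 ≤ t ∧ t ≤ X ∧ (t.Prime ∧ ¬ Good δ τ 𝒜 t)}.ncard ≤ X := by
      refine (Set.ncard_le_ncard hsub (Finset.finite_toSet _)).trans ?_
      rw [Set.ncard_coe_finset, Nat.card_Icc]
      omega
    have h5 : ({t : ℕ | 1 ≤ t ∧ t ≤ X ∧ (t.Prime ∧ ¬ Good δ τ 𝒜 t)}.ncard : ℝ) ≤ (Q₀ : ℝ) := by
      exact_mod_cast h4.trans h3
    have : (0 : ℝ) ≤ Q₀ := Nat.cast_nonneg _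
    nlinarith

/-- **Theorem.** (1) For every `δ > 0` there is `τ` in `(0, 1]` with the following property. Let `f` be starshaped functions on
`(a, ∞)` of exponent of convergence at most `σ ≥ 0`, `θ < 1`, and let `𝒜_0, 𝒜_1, …` be ANY sets of nonnegative integers. For all
`α > a` outside ONE set of Hausdorff dimension at most `(1 - τ + σ) / (1 - θ)`, for all `j` and `w`, for all but finitely many
`k`, ALL primes `p` with `|p - f_k(α)| ≤ w f_k(α) ^ θ` are good for `𝒜_j`.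
(2) The functions `v_n x`, `v_n > 0`, are starshaped on `(0, ∞)`, of exponent `σ` if `v` has exponent of convergence at most
`σ`; the functions `x ^ (v_n)`, `v_n ≥ 1`, are starshaped on `(1, ∞)`, of exponent `0` if the sums of `exp (-t v_n)` converge
for `t > 0`; and the iterates of a map `g` with `g(x) > x` for `x > a` and `g(x) / x` nondecreasing are starshaped on
`(a, ∞)`, of exponent `0`. -/
theorem result :
    (∀ δ : ℝ, 0 < δ → ∃ τ : ℝ, 0 < τ ∧ τ ≤ 1 ∧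
      ∀ (f : ℕ → ℝ → ℝ) (a σ θ : ℝ), Starshaped a f → 0 ≤ σ → ExpLe a f σ → θ < 1 → ∀ 𝒜 : ℕ → Set ℕ,
        ∃ E : Set ℝ, dimH E ≤ ENNReal.ofReal ((1 - τ + σ) / (1 - θ)) ∧
          ∀ α : ℝ, a < α → α ∉ E → ∀ (j : ℕ) (w : ℝ), ∃ k₀ : ℕ, ∀ k : ℕ, k₀ ≤ k → ∀ p : ℕ, p.Prime →
            |(p : ℝ) - f k α| ≤ w * (f k α) ^ θ → Good δ τ (𝒜 j) p) ∧
    (∀ (v : ℕ → ℝ) (τ : ℝ), (∀ n, 0 < v n) → (∀ t : ℝ, τ < t → Summable (fun n : ℕ => (v n) ^ (-t))) →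
      Starshaped 0 (fun n x => v n * x) ∧ ExpLe 0 (fun n x => v n * x) τ) ∧
    (∀ v : ℕ → ℝ, (∀ n, 1 ≤ v n) → (∀ t : ℝ, 0 < t → Summable fun n : ℕ => Real.exp (-(t * v n))) →
      Starshaped 1 (fun n x => x ^ (v n)) ∧ ExpLe 1 (fun n x => x ^ (v n)) 0) ∧
    (∀ (a : ℝ) (g : ℝ → ℝ), 0 ≤ a → (∀ x y : ℝ, a < x → x ≤ y → g x / x ≤ g y / y) → (∀ x : ℝ, a < x → x < g x) →
      Starshaped a (fun n x => g^[n] x) ∧ ExpLe a (fun n x => g^[n] x) 0) := by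
  refine ⟨fun δ hδ => ?_, Pool.Agent.R482.ST.ex_mul, Pool.Agent.R482.ST.ex_pow, Pool.Agent.R482.ST.ex_orbit⟩
  obtain ⟨τ, C, hτ, hτ1, hcount⟩ := count δ hδ
  refine ⟨τ, hτ, hτ1, fun f a σ θ hf hσ hE hθ 𝒜 => ?_⟩
  have key : ∀ j : ℕ, ∃ E : Set ℝ, dimH E ≤ ENNReal.ofReal ((1 - τ + σ) / (1 - θ)) ∧
      ∀ x : ℝ, a < x → x ∉ E → ∀ c : ℝ, ∃ n₀ : ℕ, ∀ n : ℕ, n₀ ≤ n → ∀ m : ℕ, m.Prime →
        |(m : ℝ) - f n x| ≤ c * (f n x) ^ θ → Good δ τ (𝒜 j) m := fun j =>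
    Run7.h95.FAM.star_good Nat.Prime (Good δ τ (𝒜 j)) hf hσ hE (s := 1 - τ) (by linarith) hθ (fun ε hε => by
      refine ⟨|C|, fun X hX => (hcount (𝒜 j) X hX).trans ?_⟩
      have hX1 : (1 : ℝ) ≤ X := by exact_mod_cast hX
      refine mul_le_mul (le_abs_self C) (Real.rpow_le_rpow_of_exponent_le hX1 (by linarith)) ?_ (abs_nonneg C)
      exact Real.rpow_nonneg (by linarith) _)
  choose E hE1 hE2 using key
  refine ⟨⋃ j, E j, ?_, fun α hα hαE j w => hE2 j α hα (fun h => hαE (Set.mem_iUnion.2 ⟨j, h⟩)) w⟩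
  rw [dimH_iUnion]
  exact iSup_le hE1

end Pool.Agent.Results.MP_cb27ba_nt.StarshapedPrimes
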